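import Pool.Agent.Lib.MP_cc5166_ag.Final

/-!
For every field `k` there is a homogeneous ideal `I` in the polynomial ring
`R = k[x_1, ..., x_1315]` such that `H^664_𝔪(R/I^n)` has finite length for all `n ≥ 1` and this
length is at least a positive constant times `n^1323` for all large `n`; in particular its quotient
by `n^1315` tends to infinity.
-/

universe u

namespace Pool.Agent.Results.MP_cc5166_ag.LengthUnbounded

open CC5166

/-- the length of the `R`-module `H^i_𝔪(R/I^n)` for `R = k[x_1, ..., x_d]`, `𝔪 = (x_1, ..., x_d)`. -/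
noncomputable def lam (k : Type u) [Field k] (d i : ℕ) (I : Ideal (MvPolynomial (Fin d) k))
    (n : ℕ) : ℕ∞ :=
  Module.length (MvPolynomial (Fin d) k)
    (H (Ideal.span (Set.range (MvPolynomial.X : Fin d → MvPolynomial (Fin d) k))) i
      (MvPolynomial (Fin d) k ⧸ I ^ n))

theorem result (k : Type u) [Field k] :
    ∃ I : Ideal (MvPolynomial (Fin 1315) k),
      (∃ S : Set (MvPolynomial (Fin 1315) k), (∀ f ∈ S, ∃ e : ℕ, f.IsHomogeneous e) ∧
        I = Ideal.span S) ∧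
      (∀ n : ℕ, 1 ≤ n → lam k 1315 664 I n ≠ ⊤) ∧
      (∃ C m : ℕ, ∀ n : ℕ, m ≤ n → ((n ^ 1323 : ℕ) : ℕ∞) ≤ C * lam k 1315 664 I n) ∧
      (∀ B : ℕ, ∃ m : ℕ, ∀ n : ℕ, m ≤ n →
        ((B * n ^ 1315 : ℕ) : ℕ∞) < lam k 1315 664 I n) := by
  obtain ⟨δ, hδ, h⟩ := exists_delta k 660 (by omega)
  have hM : 3 ≤ 660 := by omega
  let ε : Ix 660 ≃ Fin 1315 := Fintype.equivFinOfCardEq (card_Ix 660)
  obtain ⟨S, hS, hIS⟩ := II_homogeneous k 660 hM δ
  have key : ∀ n : ℕ, 1 ≤ n → lam k 1315 664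
      ((II k 660 hM δ).map (MvPolynomial.renameEquiv k ε).toRingEquiv.toRingHom) n =
      ((n * Module.finrank k (KN k 660 (δ * n)) : ℕ) : ℕ∞) := by
    intro n hn
    unfold lam
    rw [length_rename]
    exact length_pow k 660 hM δ hδ h n hn
  obtain ⟨C, N0, hC⟩ := KN_growth k 660 (by omega)
  have growth : ∀ n : ℕ, N0 + 1 ≤ n →
      n ^ 1323 ≤ C * (n * Module.finrank k (KN k 660 (δ * n))) := by
    intro n hn
    have h1 : n ≤ δ * n := Nat.le_mul_of_pos_left n (by omega)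
    have h2 := hC (δ * n) (by omega)
    have h4 : n ^ 1323 = n * n ^ (2 * 660 + 2) := pow_succ' n (2 * 660 + 2)
    rw [h4]
    exact (Nat.mul_le_mul_left _ (Nat.pow_le_pow_left h1 _)).trans
      ((Nat.mul_le_mul_left _ h2).trans (le_of_eq (by ring)))
  refine ⟨(II k 660 hM δ).map (MvPolynomial.renameEquiv k ε).toRingEquiv.toRingHom, ?_, ?_, ?_, ?_⟩
  · refine ⟨(MvPolynomial.renameEquiv k ε).toRingEquiv.toRingHom '' S, ?_, ?_⟩
    · rintro _ ⟨f, hf, rfl⟩
      obtain ⟨n, hn⟩ := hS f hf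
      exact ⟨n, hn.rename_isHomogeneous⟩
    · rw [hIS, Ideal.map_span]
  · intro n hn
    rw [key n hn]
    exact ENat.natCast_ne_top _
  · refine ⟨C, N0 + 1, fun n hn => ?_⟩
    rw [key n (by omega)]
    exact_mod_cast growth n hn
  · intro B
    refine ⟨N0 + 1 + B * C + 1, fun n hn => ?_⟩
    rw [key n (by omega)]
    have h1 := growth n (by omega)
    have h5 : n ^ 1323 = n ^ 7 * (n * n ^ 1315) := by
      rw [← pow_succ', ← pow_add]
    have h6 : B * C < n := by omega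
    have h7 : 1 ≤ n ^ 7 := Nat.one_le_pow _ _ (by omega)
    have h8 : 0 < n ^ 1315 := Nat.pow_pos (by omega)
    have h9 : C * (B * n ^ 1315) < C * (n * Module.finrank k (KN k 660 (δ * n))) := by
      calc C * (B * n ^ 1315) = (B * C) * n ^ 1315 := by ring
        _ < n * n ^ 1315 := Nat.mul_lt_mul_of_pos_right h6 h8
        _ ≤ n ^ 7 * (n * n ^ 1315) := Nat.le_mul_of_pos_left _ h7
        _ = n ^ 1323 := h5.symm
        _ ≤ _ := h1
    exact_mod_cast lt_of_mul_lt_mul_left h9 (Nat.zero_le C)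

end Pool.Agent.Results.MP_cc5166_ag.LengthUnbounded
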